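import Pool.Agent.X312.FK.Fib

/-!
# A gap law for the extension of homologically trivial cycles to regular models of `Y × X ^ n`

Let `Y` be **any** smooth projective variety over `ℚ`, and let `X` be a smooth projective variety
over `ℚ` such that the numerically trivial self-correspondences of its powers are nilpotent modulo
rational equivalence and homological and numerical equivalence agree on its powers (abelian
varieties, products of curves). Suppose that the varieties `Y × X ^ n`, `n ≥ 1`, have regular
proper flat models over `ℤ`, and fix such models. Let `M = (X ^ m, e)` be a direct summand of the
Chow motive of `X ^ m` which is irreducible modulo homological equivalence, and let `D = dim H(M)`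
be its rank. Let `ρ(Z)` be the rank of the cycles of all codimensions on `Z` modulo numerical
equivalence, and `b` the sum of the Betti numbers of `X`.

**All the homologically trivial cycles on** `Y ⊗ M` **(with rational coefficients, modulo rational
equivalence) extend to cycles on the model which are homologically trivial on all closed fibres,
or for all** `n ≥ 1` **at least**

`(D - 4 (m + 3) b ^ (m + 5) log (n + 1) / n) ρ(X ^ n)`

**homologically trivial cycles on** `Y × X ^ n` **are linearly independent modulo those which
extend in this way.** So if the conjecture Q1 is false for one of the varieties `Y × X ^ m` and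
one of its models, then it is false for all models of `Y × X ^ n` for all large `n`, and the
codimension of the image of `CH(Y × X ^ n)_ℤ ^ 0` is very large. The reduction of `X` and of `Y`
may be arbitrarily bad.

Let `Z`, `Z'` be powers of `X`. A correspondence `a` from `Z` to `Z'` acts on the cycles on the
models by `f s = q_* (p^* s ∩ Γ)`, where `Γ` is the closure of `Δ_Y × a` in the product of the
models and `p`, `q` are its projections to the regular models (Gillet-Soulé). The cohomology of a
closed fibre is the cohomology of the model over a strictly henselian ring, by proper base change,
and the same formula defines a map on it (absolute purity). So `f s` is homologically trivial on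
the closed fibres if `s` is.

The proof. Let `T(Z)` be the quotient of the space of the homologically trivial cycles on `Y × Z`
by those which extend; correspondences act on it. Let `P = X ^ m`, and let `z = e z ≠ 0` be an
element of `T(P)`. If `x` is a correspondence with `x z = 0` then `e x e` is nilpotent, as
otherwise some multiple of it would be an idempotent, equal to `e` by irreducibility and by the
lifting of idempotents, and would not kill `z`. So the trace of `e x` vanishes, and `dim T(Z)` is
at least the rank of the trace form `(u, v) ↦ tr (e v u)` on the correspondences between `P` and
`Z`. For `Z = X ^ n` this rank is at least `(D - ε) ρ(X ^ n)`, by the log-convexity of the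
sequence of the ranks `ρ(X ^ (2 l))`, by tensor powers, and by the symmetric group, which excludes
small growth. For the other parity `M` is cut out of `X ^ (m + 1)`.
-/

set_option autoImplicit false

open CategoryTheory AlgebraicGeometry

universe u v w

namespace Pool.Agent.Results.MP_d623ea_ag.ExtensionGapLaw

open Pool.Agent.H914 VarClass Obj WeilCohomology
open Pool.Agent.X312.FK (ChowData ChowModule FibreData IsAlgClass IrreducibleIn RankGE IndepMod)
open Pool.Agent.X312.FC (rankBound)
open Pool.Agent.Y133.Half (cycRank pw)

variable {k : Type u} [Field k] {𝒱 : VarClass k} {ops : CycleOps 𝒱}
  {W : WeilCohomology.{u, v} ops}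

/-- The sum of the Betti numbers of `X`. -/
noncomputable def totalBetti (W : WeilCohomology.{u, v} ops) (X : 𝒱.Obj) : ℕ :=
  Module.finrank W.K (W.H X)

/-- **The gap law for extensions to regular models.** In the intended use `C` is the category of Chow
correspondences between the powers of `X`, with rational coefficients, `T.M Z` is the space of the
homologically trivial cycles on `Y × Z` modulo rational equivalence, `𝓜.S Z` is the space of the cycles
on the regular model of `Y × Z` which are homologically trivial on the generic fibre, `𝓜.res` is the
restriction to the generic fibre, `𝓜.fib` says that a cycle is homologically trivial on all closed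
fibres, and `e` is the projector of the motive `M`. Here `pw X m` is the product of `m + 1`
copies of `X`. -/
theorem result (C : ChowData W) (hC : C.IsChow) (T : ChowModule C) (hT : T.IsFunctor)
    (𝓜 : FibreData T) (h𝓜 : 𝓜.HasCorrespondences) (X : 𝒱.Obj)
    (hX : ∀ n : ℕ, C.NumNil (pw X n)) (hX' : ∀ n : ℕ, HomEqNum W (pw X n))
    (m : ℕ) (e : C.A (pw X m) (pw X m)) (he : C.comp e e = e)
    (hirr : IrreducibleIn IsAlgClass (C.cl e)) (D : ℕ) (hrk : RankGE (C.cl e) D) :
    (∀ x : T.M (pw X m), T.act e x ∈ Submodule.span W.K {y | 𝓜.HasExtension y}) ∨
    ∀ n : ℕ, IndepMod (Set.univ : Set (T.M (pw X n))) (Submodule.span W.K {y | 𝓜.HasExtension y})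
      (rankBound D (totalBetti W X) (cycRank ops (pw X n)) m n) :=
  Pool.Agent.X312.FK.ext_law hC hT 𝓜 h𝓜 X hX hX' e he hirr hrk

end Pool.Agent.Results.MP_d623ea_ag.ExtensionGapLaw
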